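import Mathlib
import Pool.Agent.H706R3.WeakAlg

/-!
Problem MP_d80673_al, Q1: the class `K` of representable weakening implication semigroups is not
a variety.  A quasi-identity valid in `K` fails in a homomorphic image of a finite subalgebra of
`W(P)`, where `P` is a poset with eleven elements.
-/

set_option autoImplicit false

universe u

namespace Pool.Agent.Results.MP_d80673_al.NotVariety

open Pool.Agent.H706R3.WeakAlg

/-! ### A quasi-identity valid in `K` -/

/-- A quasi-identity that holds in every member of `K`. -/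
theorem quasi {A : Type u} {o : Ops A} (h : InK A o) (c d a g r l : A)
    (h1 : o.comp r (o.imp r r) = r) (h2 : o.comp (o.imp r r) l = l)
    (h3 : o.imp d (o.imp r l) = o.imp r r) (h4 : o.imp d (o.imp l g) = o.imp r r)
    (h5 : o.imp a (o.comp d (o.imp r r)) = o.imp r r)
    (h6 : o.imp a (o.imp (o.comp g (o.imp r r)) g) = o.imp r r) :
    o.imp (o.comp c a) (o.imp (o.imp (o.comp c (o.imp r l)) (o.comp c g)) (o.comp c g)) =
      o.imp r r := by
  obtain ⟨-, I, P, ord, f, hf, fi, fc⟩ := h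
  apply hf
  funext i
  have k1 := congrArg (fun q => (f q i).1) h1
  have k2 := congrArg (fun q => (f q i).1) h2
  have k3 := congrArg (fun q => (f q i).1) h3
  have k4 := congrArg (fun q => (f q i).1) h4
  have k5 := congrArg (fun q => (f q i).1) h5
  have k6 := congrArg (fun q => (f q i).1) h6
  simp only [fi, fc] at k1 k2 k3 k4 k5 k6 ⊢
  generalize f c i = C at *
  generalize f d i = D at *
  generalize f a i = E at *
  generalize f g i = G at *
  generalize f r i = R at *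
  generalize f l i = L at *
  clear h1 h2 h3 h4 h5 h6
  have tt : ∀ s t, ((weakOps (P i) (ord i)).imp R R).1 s t := fun s t x' y' _ _ h => h
  have m1 : ∀ s t t', R.1 s t → R.1 s t' := fun s t t' hR => by
    rw [← k1]
    exact ⟨t, hR, tt _ _⟩
  have m2 : ∀ s s' t, L.1 s t → L.1 s' t := fun s s' t hL => by
    rw [← k2]
    exact ⟨s, tt _ _, hL⟩
  have m3 : ∀ s t, D.1 s t → R.1 s t → L.1 s t := fun s t hD hR => by
    have := tt s t
    rw [← k3] at this
    exact this s t (le_refl _) (le_refl _) hD s t (le_refl _) (le_refl _) hR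
  have m4 : ∀ s t, D.1 s t → L.1 s t → G.1 s t := fun s t hD hL => by
    have := tt s t
    rw [← k4] at this
    exact this s t (le_refl _) (le_refl _) hD s t (le_refl _) (le_refl _) hL
  have m5 : ∀ s t, E.1 s t → ∃ w, D.1 s w := fun s t hE => by
    have := tt s t
    rw [← k5] at this
    obtain ⟨w, hw, -⟩ := this s t (le_refl _) (le_refl _) hE
    exact ⟨w, hw⟩
  have m6 : ∀ s t, E.1 s t → (∃ w, G.1 s w) → G.1 s t := fun s t hE ⟨w, hw⟩ => by
    have := tt s t
    rw [← k6] at this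
    exact this s t (le_refl _) (le_refl _) hE s t (le_refl _) (le_refl _) ⟨w, hw, tt _ _⟩
  apply Subtype.ext
  funext s t
  refine propext ⟨fun _ => tt s t, fun _ => ?_⟩
  intro s1 t1 _ _ hca s2 t2 hs2 ht2 hyp
  have hca2 := ((weakOps (P i) (ord i)).comp C E).2 s2 s1 t1 t2 hs2 hca ht2
  obtain ⟨z, hCz, hEz⟩ := hca2
  by_cases hz : ((weakOps (P i) (ord i)).imp R L).1 z t2
  · exact hyp s2 t2 (le_refl _) (le_refl _) ⟨z, hCz, hz⟩
  · have : ∃ v t', v ≤ z ∧ t2 ≤ t' ∧ R.1 v t' ∧ ¬ L.1 v t' := by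
      by_contra hc
      apply hz
      intro v t' hv ht' hR
      by_contra hL
      exact hc ⟨v, t', hv, ht', hR, hL⟩
    obtain ⟨v, t', hv, ht', hR, hL⟩ := this
    obtain ⟨w, hw⟩ := m5 z t2 hEz
    have hDv : D.1 v w := D.2 v z w w hv hw (le_refl _)
    have hLv := m3 v w hDv (m1 v t' w hR)
    have hGz := m4 z w hw (m2 v z w hLv)
    exact ⟨z, hCz, m6 z t2 hEz ⟨w, hGz⟩⟩

/-! ### The poset -/

/-- The eleven points. -/
inductive Pt : Type u
  | x | x' | p | v | v' | z | w | y | y' | k | k'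

open Pt

/-- The order: `x' < x`, `p < z`, `v < z`, `v' < w`, and nothing else. -/
def LE (a b : Pt.{u}) : Prop :=
  a = b ∨ (a = x' ∧ b = x) ∨ (a = p ∧ b = z) ∨ (a = v ∧ b = z) ∨ (a = v' ∧ b = w)

@[reducible] def ord : PartialOrder Pt.{u} where
  le := LE
  lt a b := LE a b ∧ ¬ LE b a
  lt_iff_le_not_ge _ _ := Iff.rfl
  le_refl _ := Or.inl rfl
  le_trans := by
    rintro a b c (rfl | ⟨rfl, rfl⟩ | ⟨rfl, rfl⟩ | ⟨rfl, rfl⟩ | ⟨rfl, rfl⟩)
      (rfl | ⟨h, rfl⟩ | ⟨h, rfl⟩ | ⟨h, rfl⟩ | ⟨h, rfl⟩) <;> simp_all [LE]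
  le_antisymm := by
    rintro a b (rfl | ⟨rfl, rfl⟩ | ⟨rfl, rfl⟩ | ⟨rfl, rfl⟩ | ⟨rfl, rfl⟩) h <;> simp_all [LE]

/-- The points other than `x`, `z`, `w`; these are minimal. -/
def Low (s : Pt.{u}) : Prop := s ≠ x ∧ s ≠ z ∧ s ≠ w

theorem low_down {s s' : Pt.{u}} (h : Low s) (h' : LE s' s) : s' = s := by
  rcases h' with h' | ⟨-, h'⟩ | ⟨-, h'⟩ | ⟨-, h'⟩ | ⟨-, h'⟩
  · exact h'
  · exact absurd h' h.1
  · exact absurd h' h.2.1
  · exact absurd h' h.2.1
  · exact absurd h' h.2.2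

/-- What lies above a point. -/
theorem up {t t' : Pt.{u}} (h : LE t t') :
    t' = t ∨ (t = x' ∧ t' = x) ∨ (t = p ∧ t' = z) ∨ (t = v ∧ t' = z) ∨ (t = v' ∧ t' = w) := by
  rcases h with h | h
  · exact Or.inl h.symm
  · exact Or.inr h

/-! ### The subalgebra -/

/-- The relations in the subalgebra. -/
structure Good (R : Pt.{u} → Pt.{u} → Prop) : Prop where
  X : ∀ s, R s x → R s x'
  Y : ∀ t, R y t ↔ R y' t
  V : ∀ t, R v t ↔ R v' t
  W : ∀ t, t ≠ y → R v' t → R w t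
  S : ∀ s, Low s → (R s y ↔ R s y')
  Z : ∀ s, Low s → R s z → R s p ∨ R s v
  T : ∀ s, Low s → R s w → R s v'
  Q : R x z → R x w ∨ R x p ∨ R x v
  J : R p y → R v y → R z y ∨ R w y

/-- Composition of relations. -/
def cmp (R S : Pt.{u} → Pt.{u} → Prop) (s t : Pt.{u}) : Prop := ∃ q, R s q ∧ S q t

/-- Implication of relations. -/
def arr (R S : Pt.{u} → Pt.{u} → Prop) (s t : Pt.{u}) : Prop :=
  ∀ s' t', LE s' s → LE t t' → R s' t' → S s' t'

/-- Weakening relations. -/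
def Mono (R : Pt.{u} → Pt.{u} → Prop) : Prop :=
  ∀ s' s t t', LE s' s → R s t → LE t t' → R s' t'

theorem low_cases (q : Pt.{u}) : Low q ∨ q = x ∨ q = z ∨ q = w := by
  unfold Low
  cases q <;> simp

theorem low_p : Low (p : Pt.{u}) := by unfold Low; simp
theorem low_v : Low (v : Pt.{u}) := by unfold Low; simp
theorem low_v' : Low (v' : Pt.{u}) := by unfold Low; simp
theorem low_x' : Low (x' : Pt.{u}) := by unfold Low; simp
theorem low_y : Low (y : Pt.{u}) := by unfold Low; simp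
theorem low_y' : Low (y' : Pt.{u}) := by unfold Low; simp

theorem le_x : LE (x' : Pt.{u}) x := by unfold LE; simp
theorem le_p : LE (p : Pt.{u}) z := by unfold LE; simp
theorem le_v : LE (v : Pt.{u}) z := by unfold LE; simp
theorem le_w : LE (v' : Pt.{u}) w := by unfold LE; simp
theorem le_rfl' (s : Pt.{u}) : LE s s := Or.inl rfl

/-- At a low source `s` and a maximal target `t` implication is computed pointwise. -/
theorem arr_low {R S : Pt.{u} → Pt.{u} → Prop} {s t : Pt.{u}} (hs : Low s)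
    (ht : ∀ t', LE t t' → t' = t) : arr R S s t ↔ (R s t → S s t) := by
  constructor
  · intro h
    exact h s t (le_rfl' s) (le_rfl' t)
  · intro h s' t' h1 h2 h3
    rw [low_down hs h1, ht t' h2] at h3 ⊢
    exact h h3

theorem max_of {t : Pt.{u}} (h : t ≠ x' ∧ t ≠ p ∧ t ≠ v ∧ t ≠ v') (t' : Pt.{u}) (h' : LE t t') :
    t' = t := by
  rcases up h' with h1 | ⟨h1, -⟩ | ⟨h1, -⟩ | ⟨h1, -⟩ | ⟨h1, -⟩
  · exact h1
  · exact absurd h1 h.1
  · exact absurd h1 h.2.1
  · exact absurd h1 h.2.2.1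
  · exact absurd h1 h.2.2.2

theorem arr_good {R S : Pt.{u} → Pt.{u} → Prop} (mR : Mono R) (mS : Mono S) (hR : Good R)
    (hS : Good S) : Good (arr R S) where
  X := by
    intro s h s1 t1 h1 h2 h3
    rcases up h2 with rfl | ⟨-, rfl⟩ | ⟨h4, -⟩ | ⟨h4, -⟩ | ⟨h4, -⟩
    · exact hS.X _ (h s1 x h1 (le_rfl' _) (mR _ _ _ _ (le_rfl' _) h3 le_x))
    · exact h s1 _ h1 (le_rfl' _) h3
    all_goals simp at h4
  Y := by
    intro t
    constructor
    · intro h s1 t1 h1 h2 h3
      obtain rfl := low_down low_y' h1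
      exact (hS.Y _).1 (h y t1 (le_rfl' _) h2 ((hR.Y _).2 h3))
    · intro h s1 t1 h1 h2 h3
      obtain rfl := low_down low_y h1
      exact (hS.Y _).2 (h y' t1 (le_rfl' _) h2 ((hR.Y _).1 h3))
  V := by
    intro t
    constructor
    · intro h s1 t1 h1 h2 h3
      obtain rfl := low_down low_v' h1
      exact (hS.V _).1 (h v t1 (le_rfl' _) h2 ((hR.V _).2 h3))
    · intro h s1 t1 h1 h2 h3
      obtain rfl := low_down low_v h1
      exact (hS.V _).2 (h v' t1 (le_rfl' _) h2 ((hR.V _).1 h3))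
  W := by
    intro t ht h s1 t1 h1 h2 h3
    have ht1 : t1 ≠ y := by
      rintro rfl
      rcases h2 with h4 | ⟨-, h4⟩ | ⟨-, h4⟩ | ⟨-, h4⟩ | ⟨-, h4⟩
      · exact ht h4
      all_goals simp at h4
    rcases h1 with rfl | ⟨-, h4⟩ | ⟨-, h4⟩ | ⟨-, h4⟩ | ⟨rfl, -⟩
    · exact hS.W _ ht1 (h v' t1 (le_rfl' _) h2 (mR _ _ _ _ le_w h3 (le_rfl' _)))
    · simp at h4
    · simp at h4
    · simp at h4
    · exact h v' t1 (le_rfl' _) h2 h3
  S := by
    intro s hs
    rw [arr_low hs (max_of (by simp)), arr_low hs (max_of (by simp)), hR.S s hs, hS.S s hs]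
  Z := by
    intro s hs h
    rw [arr_low hs (max_of (by simp))] at h
    by_contra hc
    rw [not_or] at hc
    obtain ⟨hp, hv⟩ := hc
    have e : ∀ q : Pt.{u}, q = p ∨ q = v → ¬ arr R S s q → R s q ∧ ¬ S s q ∨ R s z ∧ ¬ S s z := by
      intro q hq hn
      by_contra hcc
      apply hn
      intro s1 t1 h1 h2 h3
      obtain rfl := low_down hs h1
      rcases up h2 with rfl | ⟨rfl, -⟩ | ⟨-, rfl⟩ | ⟨-, rfl⟩ | ⟨rfl, -⟩
      · by_contra h4
        exact hcc (Or.inl ⟨h3, h4⟩)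
      · simp at hq
      · by_contra h4
        exact hcc (Or.inr ⟨h3, h4⟩)
      · by_contra h4
        exact hcc (Or.inr ⟨h3, h4⟩)
      · simp at hq
    rcases e p (Or.inl rfl) hp with ⟨a1, a2⟩ | ⟨a1, a2⟩
    · rcases e v (Or.inr rfl) hv with ⟨b1, b2⟩ | ⟨b1, b2⟩
      · rcases hS.Z s hs (h (mR _ _ _ _ (le_rfl' _) a1 le_p)) with h4 | h4
        · exact a2 h4
        · exact b2 h4
      · exact b2 (h b1)
    · exact a2 (h a1)
  T := by
    intro s hs h s1 t1 h1 h2 h3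
    obtain rfl := low_down hs h1
    rcases up h2 with rfl | ⟨h4, -⟩ | ⟨h4, -⟩ | ⟨h4, -⟩ | ⟨-, rfl⟩
    · exact hS.T _ hs (h s1 w (le_rfl' _) (le_rfl' _) (mR _ _ _ _ (le_rfl' _) h3 le_w))
    · simp at h4
    · simp at h4
    · simp at h4
    · exact h s1 w (le_rfl' _) (le_rfl' _) h3
  Q := by
    intro h
    by_contra hc
    simp only [not_or] at hc
    obtain ⟨hw, hp, hv⟩ := hc
    have e : ∀ q : Pt.{u}, q = p ∨ q = v ∨ q = w → ¬ arr R S x q →
        ∃ s1, LE s1 x ∧ R s1 q ∧ ¬ S s1 q := by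
      intro q hq hn
      by_contra hcc
      apply hn
      intro s1 t1 h1 h2 h3
      by_contra h4
      rcases up h2 with rfl | ⟨rfl, -⟩ | ⟨-, rfl⟩ | ⟨-, rfl⟩ | ⟨rfl, -⟩
      · exact hcc ⟨s1, h1, h3, h4⟩
      · simp at hq
      · exact h4 (h s1 z h1 (le_rfl' _) h3)
      · exact h4 (h s1 z h1 (le_rfl' _) h3)
      · simp at hq
    obtain ⟨s1, a1, a2, a3⟩ := e p (by simp) hp
    obtain ⟨s2, b1, b2, b3⟩ := e v (by simp) hv
    obtain ⟨s3, c1, c2, c3⟩ := e w (by simp) hw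
    have hxz : ¬ R x z := by
      intro h1
      rcases hS.Q (h x z (le_rfl' _) (le_rfl' _) h1) with h2 | h2 | h2
      · exact c3 (mS _ _ _ _ c1 h2 (le_rfl' _))
      · exact a3 (mS _ _ _ _ a1 h2 (le_rfl' _))
      · exact b3 (mS _ _ _ _ b1 h2 (le_rfl' _))
    rcases a1 with rfl | ⟨rfl, -⟩ | ⟨-, a1⟩ | ⟨-, a1⟩ | ⟨-, a1⟩
    · exact hxz (mR _ _ _ _ (le_rfl' _) a2 le_p)
    · rcases b1 with rfl | ⟨rfl, -⟩ | ⟨-, b1⟩ | ⟨-, b1⟩ | ⟨-, b1⟩
      · exact hxz (mR _ _ _ _ (le_rfl' _) b2 le_v)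
      · rcases hS.Z _ low_x' (h x' z le_x (le_rfl' _) (mR _ _ _ _ (le_rfl' _) a2 le_p)) with h4 | h4
        · exact a3 h4
        · exact b3 h4
      all_goals simp at b1
    all_goals simp at a1
  J := by
    intro hp hv
    by_contra hc
    simp only [not_or] at hc
    obtain ⟨hz, hw⟩ := hc
    have e1 : R z y ∧ ¬ S z y := by
      by_contra hcc
      apply hz
      intro s1 r1 h1 h2 h3
      obtain rfl := max_of (by simp) _ h2
      by_contra h4
      rcases h1 with rfl | ⟨-, h1⟩ | ⟨rfl, -⟩ | ⟨rfl, -⟩ | ⟨-, h1⟩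
      · exact hcc ⟨h3, h4⟩
      · simp at h1
      · exact h4 (hp _ _ (le_rfl' _) (le_rfl' _) h3)
      · exact h4 (hv _ _ (le_rfl' _) (le_rfl' _) h3)
      · simp at h1
    have e2 : ¬ S w y := by
      intro hcc
      apply hw
      intro s1 r1 h1 h2 h3
      obtain rfl := max_of (by simp) _ h2
      exact mS _ _ _ _ h1 hcc (le_rfl' _)
    have hp1 := hp _ _ (le_rfl' _) (le_rfl' _) (mR _ _ _ _ le_p e1.1 (le_rfl' _))
    have hv1 := hv _ _ (le_rfl' _) (le_rfl' _) (mR _ _ _ _ le_v e1.1 (le_rfl' _))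
    rcases hS.J hp1 hv1 with h4 | h4
    · exact e1.2 h4
    · exact e2 h4

/-- From a low source one can pass to a low intermediate point. -/
theorem lower {R : Pt.{u} → Pt.{u} → Prop} (hR : Good R) {s q : Pt.{u}} (hs : Low s)
    (h : R s q) : ∃ q', Low q' ∧ LE q' q ∧ R s q' := by
  rcases low_cases q with hq | rfl | rfl | rfl
  · exact ⟨q, hq, le_rfl' q, h⟩
  · exact ⟨x', low_x', le_x, hR.X _ h⟩
  · rcases hR.Z _ hs h with h1 | h1
    · exact ⟨p, low_p, le_p, h1⟩
    · exact ⟨v, low_v, le_v, h1⟩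
  · exact ⟨v', low_v', le_w, hR.T _ hs h⟩

theorem cmp_good {R S : Pt.{u} → Pt.{u} → Prop} (mS : Mono S) (hR : Good R)
    (hS : Good S) : Good (cmp R S) where
  X := by
    rintro s ⟨q, h1, h2⟩
    exact ⟨q, h1, hS.X _ h2⟩
  Y := by
    intro t
    constructor
    · rintro ⟨q, h1, h2⟩
      exact ⟨q, (hR.Y _).1 h1, h2⟩
    · rintro ⟨q, h1, h2⟩
      exact ⟨q, (hR.Y _).2 h1, h2⟩
  V := by
    intro t
    constructor
    · rintro ⟨q, h1, h2⟩
      exact ⟨q, (hR.V _).1 h1, h2⟩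
    · rintro ⟨q, h1, h2⟩
      exact ⟨q, (hR.V _).2 h1, h2⟩
  W := by
    rintro t - ⟨q, h1, h2⟩
    by_cases hq : q = y
    · subst hq
      exact ⟨y', hR.W _ (by simp) ((hR.S _ low_v').1 h1), (hS.Y _).1 h2⟩
    · exact ⟨q, hR.W _ hq h1, h2⟩
  S := by
    intro s hs
    constructor
    · rintro ⟨q, h1, h2⟩
      obtain ⟨q', l1, l2, l3⟩ := lower hR hs h1
      exact ⟨q', l3, (hS.S _ l1).1 (mS _ _ _ _ l2 h2 (le_rfl' _))⟩
    · rintro ⟨q, h1, h2⟩
      obtain ⟨q', l1, l2, l3⟩ := lower hR hs h1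
      exact ⟨q', l3, (hS.S _ l1).2 (mS _ _ _ _ l2 h2 (le_rfl' _))⟩
  Z := by
    rintro s hs ⟨q, h1, h2⟩
    obtain ⟨q', l1, l2, l3⟩ := lower hR hs h1
    rcases hS.Z _ l1 (mS _ _ _ _ l2 h2 (le_rfl' _)) with h4 | h4
    · exact Or.inl ⟨q', l3, h4⟩
    · exact Or.inr ⟨q', l3, h4⟩
  T := by
    rintro s hs ⟨q, h1, h2⟩
    obtain ⟨q', l1, l2, l3⟩ := lower hR hs h1
    exact ⟨q', l3, hS.T _ l1 (mS _ _ _ _ l2 h2 (le_rfl' _))⟩
  Q := by
    rintro ⟨q, h1, h2⟩
    have key : ∀ q, Low q → R x q → S q z → cmp R S x w ∨ cmp R S x p ∨ cmp R S x v := by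
      intro q hq h1 h2
      rcases hS.Z _ hq h2 with h4 | h4
      · exact Or.inr (Or.inl ⟨q, h1, h4⟩)
      · exact Or.inr (Or.inr ⟨q, h1, h4⟩)
    have keyw : R x w → S v' z → cmp R S x w ∨ cmp R S x p ∨ cmp R S x v := by
      intro h1 h2
      rcases hS.Z _ low_v' h2 with h4 | h4
      · exact Or.inr (Or.inl ⟨w, h1, hS.W _ (by simp) h4⟩)
      · exact Or.inr (Or.inr ⟨w, h1, hS.W _ (by simp) h4⟩)
    rcases low_cases q with hq | rfl | rfl | rfl
    · exact key q hq h1 h2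
    · exact key x' low_x' (hR.X _ h1) (mS _ _ _ _ le_x h2 (le_rfl' _))
    · rcases hR.Q h1 with h4 | h4 | h4
      · exact keyw h4 ((hS.V _).1 (mS _ _ _ _ le_v h2 (le_rfl' _)))
      · exact key p low_p h4 (mS _ _ _ _ le_p h2 (le_rfl' _))
      · exact key v low_v h4 (mS _ _ _ _ le_v h2 (le_rfl' _))
    · exact keyw h1 (mS _ _ _ _ le_w h2 (le_rfl' _))
  J := by
    rintro - ⟨q, h1, h2⟩
    right
    by_cases hq : q = y
    · subst hq
      exact ⟨y', hR.W _ (by simp) ((hR.S _ low_v').1 ((hR.V _).1 h1)), (hS.Y _).1 h2⟩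
    · exact ⟨q, hR.W _ hq ((hR.V _).1 h1), h2⟩

/-- The subalgebra. -/
def Al : Type u := {R : Weak Pt.{u} ord // Good R.1}

def alOps : Ops Al.{u} where
  imp R S := ⟨(weakOps Pt ord).imp R.1 S.1, arr_good R.1.2 S.1.2 R.2 S.2⟩
  comp R S := ⟨(weakOps Pt ord).comp R.1 S.1, cmp_good S.1.2 R.2 S.2⟩

theorem one_good : Good (fun _ _ : Pt.{u} => True) := by
  constructor <;> intros <;> simp

theorem al_inK : InK Al.{u} alOps :=
  (inK_weak Pt.{u} ord).sub (f := fun R : Al.{u} => R.1)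
    ⟨⟨⟨fun _ _ => True, fun _ _ _ _ _ _ _ => trivial⟩, one_good⟩⟩
    ⟨fun _ _ => rfl, fun _ _ => rfl⟩ Subtype.val_injective

/-! ### The quotient -/

/-- Two relations agree outside the row of `z`. -/
def Agree (R S : Al.{u}) : Prop := ∀ s t, s ≠ z → (R.1.1 s t ↔ S.1.1 s t)

def agreeSetoid : Setoid Al.{u} where
  r := Agree
  iseqv := ⟨fun _ _ _ _ => Iff.rfl, fun h s t hs => (h s t hs).symm,
    fun h h' s t hs => (h s t hs).trans (h' s t hs)⟩

theorem below_ne {s s' : Pt.{u}} (hs : s ≠ z) (h : LE s' s) : s' ≠ z := by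
  rcases h with rfl | ⟨rfl, -⟩ | ⟨rfl, -⟩ | ⟨rfl, -⟩ | ⟨rfl, -⟩
  · exact hs
  all_goals simp

theorem agree_imp {R R' S S' : Al.{u}} (h : Agree R R') (h' : Agree S S') :
    Agree (alOps.imp R S) (alOps.imp R' S') := by
  intro s t hs
  constructor
  · intro h1 s1 r1 l1 l2 h2
    have hz := below_ne hs l1
    exact (h' _ _ hz).1 (h1 s1 r1 l1 l2 ((h _ _ hz).2 h2))
  · intro h1 s1 r1 l1 l2 h2
    have hz := below_ne hs l1
    exact (h' _ _ hz).2 (h1 s1 r1 l1 l2 ((h _ _ hz).1 h2))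

/-- The main point: composition is compatible with the restriction. -/
theorem comp_half {R R' S S' : Al.{u}} (h : Agree R R') (h' : Agree S S') {s t : Pt.{u}}
    (hs : s ≠ z) (hc : (alOps.comp R S).1.1 s t) : (alOps.comp R' S').1.1 s t := by
  obtain ⟨q, h1, h2⟩ := hc
  have g1 := (h s q hs).1 h1
  by_cases hq : q = z
  swap
  · exact ⟨q, g1, (h' q t hq).1 h2⟩
  subst hq
  have hp : S'.1.1 p t := (h' p t (by simp)).1 (S.1.2 _ _ _ _ le_p h2 (le_rfl' _))
  have hv : S'.1.1 v t := (h' v t (by simp)).1 (S.1.2 _ _ _ _ le_v h2 (le_rfl' _))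
  have hw : t ≠ y → S'.1.1 w t := fun ht => S'.2.W t ht ((S'.2.V t).1 hv)
  rcases low_cases s with ls | rfl | rfl | rfl
  · rcases R'.2.Z s ls g1 with g | g
    · exact ⟨p, g, hp⟩
    · exact ⟨v, g, hv⟩
  · by_cases ht : t = y
    · subst ht
      rcases S'.2.J hp hv with h3 | h3
      · exact ⟨z, g1, h3⟩
      · rcases R'.2.Q g1 with g | g | g
        · exact ⟨w, g, h3⟩
        · exact ⟨p, g, hp⟩
        · exact ⟨v, g, hv⟩
    · rcases R'.2.Q g1 with g | g | g
      · exact ⟨w, g, hw ht⟩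
      · exact ⟨p, g, hp⟩
      · exact ⟨v, g, hv⟩
  · exact absurd rfl hs
  · rcases R'.2.Z v' low_v' (R'.1.2 _ _ _ _ le_w g1 (le_rfl' _)) with g | g
    · exact ⟨p, R'.2.W _ (by simp) g, hp⟩
    · exact ⟨v, R'.2.W _ (by simp) g, hv⟩

theorem agree_comp {R R' S S' : Al.{u}} (h : Agree R R') (h' : Agree S S') :
    Agree (alOps.comp R S) (alOps.comp R' S') := fun _ _ hs =>
  ⟨comp_half h h' hs, comp_half (fun a b hs => (h a b hs).symm) (fun a b hs => (h' a b hs).symm) hs⟩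

/-- The quotient algebra. -/
def Qu : Type u := Quotient agreeSetoid.{u}

def quOps : Ops Qu.{u} where
  imp := Quotient.map₂ alOps.imp (fun _ _ h _ _ h' => agree_imp h h')
  comp := Quotient.map₂ alOps.comp (fun _ _ h _ _ h' => agree_comp h h')

def toQu (R : Al.{u}) : Qu.{u} := Quotient.mk agreeSetoid R

theorem toQu_hom : IsHom alOps.{u} quOps toQu := ⟨fun _ _ => rfl, fun _ _ => rfl⟩

theorem toQu_surj : Function.Surjective toQu.{u} := Quotient.mk_surjective

theorem eq_of {R S : Al.{u}} (h : Agree R S) : toQu R = toQu S := Quotient.sound h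

theorem agree_of {R S : Al.{u}} (h : toQu R = toQu S) : Agree R S := Quotient.exact h

/-! ### The six elements -/

def relC (s t : Pt.{u}) : Prop :=
  (s = x ∧ (t = z ∨ t = w)) ∨ (s = x' ∧ (t = v ∨ t = v' ∨ t = z ∨ t = w))

def relD (s t : Pt.{u}) : Prop := (s = p ∧ t = k) ∨ ((s = v ∨ s = v' ∨ s = w) ∧ t = k')

def relA (s t : Pt.{u}) : Prop :=
  (t = y ∧ (s = z ∨ s = p ∨ s = v ∨ s = v')) ∨ (t = y' ∧ (s = p ∨ s = v ∨ s = v' ∨ s = w))

def relG (s t : Pt.{u}) : Prop :=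
  ((s = v ∨ s = v' ∨ s = w) ∧ (t = k' ∨ t = y')) ∨ (t = y ∧ (s = v ∨ s = v'))

def relR (s _t : Pt.{u}) : Prop := s = v ∨ s = v' ∨ s = w

def relL (_s t : Pt.{u}) : Prop := t = k'

def mkAl (R : Pt.{u} → Pt.{u} → Prop) (m : Mono R) (h : Good R) : Al.{u} :=
  ⟨⟨R, fun s' s t t' h1 h2 h3 => m s' s t t' h1 h2 h3⟩, h⟩

theorem relC_mono : Mono relC.{u} := by
  intro s' s t t' h1 h2 h3
  rcases h1 with rfl | ⟨rfl, rfl⟩ | ⟨rfl, rfl⟩ | ⟨rfl, rfl⟩ | ⟨rfl, rfl⟩ <;>
  rcases h3 with rfl | ⟨rfl, rfl⟩ | ⟨rfl, rfl⟩ | ⟨rfl, rfl⟩ | ⟨rfl, rfl⟩ <;>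
  simp_all [relC]

theorem relC_good : Good relC.{u} := by
  constructor
  case X => intro s; cases s <;> simp [relC]
  case Y => intro t; cases t <;> simp [relC]
  case V => intro t; cases t <;> simp [relC]
  case W => intro t; cases t <;> simp [relC]
  case S => intro s; cases s <;> simp [relC, Low]
  case Z => intro s; cases s <;> simp [relC, Low]
  case T => intro s; cases s <;> simp [relC, Low]
  case Q => simp [relC]
  case J => simp [relC]

def eC : Al.{u} := mkAl relC relC_mono relC_good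

theorem relD_mono : Mono relD.{u} := by
  intro s' s t t' h1 h2 h3
  rcases h1 with rfl | ⟨rfl, rfl⟩ | ⟨rfl, rfl⟩ | ⟨rfl, rfl⟩ | ⟨rfl, rfl⟩ <;>
  rcases h3 with rfl | ⟨rfl, rfl⟩ | ⟨rfl, rfl⟩ | ⟨rfl, rfl⟩ | ⟨rfl, rfl⟩ <;>
  simp_all [relD]

theorem relD_good : Good relD.{u} := by
  constructor
  case X => intro s; cases s <;> simp [relD]
  case Y => intro t; cases t <;> simp [relD]
  case V => intro t; cases t <;> simp [relD]
  case W => intro t; cases t <;> simp [relD]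
  case S => intro s; cases s <;> simp [relD, Low]
  case Z => intro s; cases s <;> simp [relD, Low]
  case T => intro s; cases s <;> simp [relD, Low]
  case Q => simp [relD]
  case J => simp [relD]

def eD : Al.{u} := mkAl relD relD_mono relD_good

theorem relA_mono : Mono relA.{u} := by
  intro s' s t t' h1 h2 h3
  rcases h1 with rfl | ⟨rfl, rfl⟩ | ⟨rfl, rfl⟩ | ⟨rfl, rfl⟩ | ⟨rfl, rfl⟩ <;>
  rcases h3 with rfl | ⟨rfl, rfl⟩ | ⟨rfl, rfl⟩ | ⟨rfl, rfl⟩ | ⟨rfl, rfl⟩ <;>
  simp_all [relA]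

theorem relA_good : Good relA.{u} := by
  constructor
  case X => intro s; cases s <;> simp [relA]
  case Y => intro t; cases t <;> simp [relA]
  case V => intro t; cases t <;> simp [relA]
  case W => intro t; cases t <;> simp [relA]
  case S => intro s; cases s <;> simp [relA, Low]
  case Z => intro s; cases s <;> simp [relA, Low]
  case T => intro s; cases s <;> simp [relA, Low]
  case Q => simp [relA]
  case J => simp [relA]

def eA : Al.{u} := mkAl relA relA_mono relA_good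

theorem relG_mono : Mono relG.{u} := by
  intro s' s t t' h1 h2 h3
  rcases h1 with rfl | ⟨rfl, rfl⟩ | ⟨rfl, rfl⟩ | ⟨rfl, rfl⟩ | ⟨rfl, rfl⟩ <;>
  rcases h3 with rfl | ⟨rfl, rfl⟩ | ⟨rfl, rfl⟩ | ⟨rfl, rfl⟩ | ⟨rfl, rfl⟩ <;>
  simp_all [relG]

theorem relG_good : Good relG.{u} := by
  constructor
  case X => intro s; cases s <;> simp [relG]
  case Y => intro t; cases t <;> simp [relG]
  case V => intro t; cases t <;> simp [relG]
  case W => intro t; cases t <;> simp [relG]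
  case S => intro s; cases s <;> simp [relG, Low]
  case Z => intro s; cases s <;> simp [relG, Low]
  case T => intro s; cases s <;> simp [relG, Low]
  case Q => simp [relG]
  case J => simp [relG]

def eG : Al.{u} := mkAl relG relG_mono relG_good

theorem relR_mono : Mono relR.{u} := by
  intro s' s t t' h1 h2 h3
  rcases h1 with rfl | ⟨rfl, rfl⟩ | ⟨rfl, rfl⟩ | ⟨rfl, rfl⟩ | ⟨rfl, rfl⟩ <;>
  rcases h3 with rfl | ⟨rfl, rfl⟩ | ⟨rfl, rfl⟩ | ⟨rfl, rfl⟩ | ⟨rfl, rfl⟩ <;>
  simp_all [relR]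

theorem relR_good : Good relR.{u} := by
  constructor
  case X => intro s; cases s <;> simp [relR]
  case Y => intro t; cases t <;> simp [relR]
  case V => intro t; cases t <;> simp [relR]
  case W => intro t; cases t <;> simp [relR]
  case S => intro s; cases s <;> simp [relR, Low]
  case Z => intro s; cases s <;> simp [relR, Low]
  case T => intro s; cases s <;> simp [relR, Low]
  case Q => simp [relR]
  case J => simp [relR]

def eR : Al.{u} := mkAl relR relR_mono relR_good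

theorem relL_mono : Mono relL.{u} := by
  intro s' s t t' h1 h2 h3
  rcases h1 with rfl | ⟨rfl, rfl⟩ | ⟨rfl, rfl⟩ | ⟨rfl, rfl⟩ | ⟨rfl, rfl⟩ <;>
  rcases h3 with rfl | ⟨rfl, rfl⟩ | ⟨rfl, rfl⟩ | ⟨rfl, rfl⟩ | ⟨rfl, rfl⟩ <;>
  simp_all [relL]

theorem relL_good : Good relL.{u} := by
  constructor
  case X => intro s; cases s <;> simp [relL]
  case Y => intro t; cases t <;> simp [relL]
  case V => intro t; cases t <;> simp [relL]
  case W => intro t; cases t <;> simp [relL]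
  case S => intro s; cases s <;> simp [relL, Low]
  case Z => intro s; cases s <;> simp [relL, Low]
  case T => intro s; cases s <;> simp [relL, Low]
  case Q => simp [relL]
  case J => simp [relL]

def eL : Al.{u} := mkAl relL relL_mono relL_good

theorem one_true (R : Al.{u}) (s t : Pt.{u}) : (alOps.imp R R).1.1 s t := fun _ _ _ _ h => h

/-- The quotient violates the quasi-identity, so it is not in `K`. -/
theorem qu_notInK : ¬ InK Qu.{u} quOps := by
  intro hK
  have h1 : quOps.comp (toQu eR.{u}) (quOps.imp (toQu eR) (toQu eR)) = toQu eR := by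
    refine eq_of (R := alOps.comp eR (alOps.imp eR eR)) fun s t _ => ⟨?_, ?_⟩
    · rintro ⟨q, h, -⟩
      exact h
    · intro h
      exact ⟨t, h, one_true _ _ _⟩
  have h2 : quOps.comp (quOps.imp (toQu eR.{u}) (toQu eR)) (toQu eL) = toQu eL := by
    refine eq_of (R := alOps.comp (alOps.imp eR eR) eL) fun s t _ => ⟨?_, ?_⟩
    · rintro ⟨q, -, h⟩
      exact h
    · intro h
      exact ⟨s, one_true _ _ _, h⟩
  have h3 : quOps.imp (toQu eD.{u}) (quOps.imp (toQu eR) (toQu eL)) =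
      quOps.imp (toQu eR) (toQu eR) := by
    refine eq_of (R := alOps.imp eD (alOps.imp eR eL)) (S := alOps.imp eR eR)
      fun s t _ => ⟨fun _ => one_true _ _ _, fun _ => ?_⟩
    intro s1 r1 _ _ hd s2 r2 l1 l2 hr
    have hd : relD s1 r1 := hd
    have hd : relD s2 r2 := relD_mono _ _ _ _ l1 hd l2
    have hr : relR s2 r2 := hr
    show relL s2 r2
    rcases hd with ⟨rfl, rfl⟩ | ⟨-, rfl⟩
    · simp [relR] at hr
    · simp [relL]
  have h4 : quOps.imp (toQu eD.{u}) (quOps.imp (toQu eL) (toQu eG)) =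
      quOps.imp (toQu eR) (toQu eR) := by
    refine eq_of (R := alOps.imp eD (alOps.imp eL eG)) (S := alOps.imp eR eR)
      fun s t _ => ⟨fun _ => one_true _ _ _, fun _ => ?_⟩
    intro s1 r1 _ _ hd s2 r2 l1 l2 hr
    have hd : relD s1 r1 := hd
    have hd : relD s2 r2 := relD_mono _ _ _ _ l1 hd l2
    have hr : relL s2 r2 := hr
    show relG s2 r2
    rcases hd with ⟨rfl, rfl⟩ | ⟨h, rfl⟩
    · simp [relL] at hr
    · exact Or.inl ⟨h, Or.inl rfl⟩
  have h5 : quOps.imp (toQu eA.{u}) (quOps.comp (toQu eD) (quOps.imp (toQu eR) (toQu eR))) =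
      quOps.imp (toQu eR) (toQu eR) := by
    refine eq_of (R := alOps.imp eA (alOps.comp eD (alOps.imp eR eR)))
      (S := alOps.imp eR eR) fun s t hs => ⟨fun _ => one_true _ _ _, fun _ => ?_⟩
    intro s1 r1 l1 _ ha
    have hz := below_ne hs l1
    have ha : relA s1 r1 := ha
    have : ∃ q, relD s1 q := by
      revert ha hz
      cases s1 <;> simp [relA, relD]
    obtain ⟨q, hq⟩ := this
    exact ⟨q, hq, one_true _ _ _⟩
  have h6 : quOps.imp (toQu eA.{u}) (quOps.imp (quOps.comp (toQu eG)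
      (quOps.imp (toQu eR) (toQu eR))) (toQu eG)) = quOps.imp (toQu eR) (toQu eR) := by
    refine eq_of (R := alOps.imp eA (alOps.imp (alOps.comp eG (alOps.imp eR eR)) eG))
      (S := alOps.imp eR eR) fun s t hs => ⟨fun _ => one_true _ _ _, fun _ => ?_⟩
    intro s1 r1 l1 _ ha s2 r2 l2 l3 hg
    have hz := below_ne (below_ne hs l1) l2
    have ha : relA s1 r1 := ha
    have ha : relA s2 r2 := relA_mono _ _ _ _ l2 ha l3
    obtain ⟨q, hq, -⟩ := hg
    have hq : relG s2 q := hq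
    show relG s2 r2
    revert ha hz hq
    cases s2 <;> simp [relA, relG] <;> tauto
  have key := quasi hK (toQu eC) (toQu eD) (toQu eA) (toQu eG) (toQu eR) (toQu eL) h1 h2 h3 h4 h5 h6
  have key2 := agree_of (R := alOps.imp (alOps.comp eC eA) (alOps.imp (alOps.imp
    (alOps.comp eC (alOps.imp eR eL)) (alOps.comp eC eG)) (alOps.comp eC eG)))
    (S := alOps.imp eR eR) key
  have k3 := (key2 x y (by simp)).2 (one_true _ _ _)
  have k4 : ¬ (alOps.comp eC.{u} eG).1.1 x y := by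
    rintro ⟨q, hc, hg⟩
    have hc : relC x q := hc
    have hg : relG q y := hg
    revert hc hg
    cases q <;> simp [relC, relG]
  apply k4
  refine k3 x y (le_rfl' _) (le_rfl' _) ⟨z, ?_, ?_⟩ x y (le_rfl' _) (le_rfl' _) ?_
  · show relC x z
    simp [relC]
  · show relA z y
    simp [relA]
  · intro s1 r1 l1 l2 hc
    exfalso
    obtain rfl := max_of (by simp) _ l2
    obtain ⟨q, hc, hrl⟩ := hc
    have hc : relC s1 q := hc
    have hrl : ∀ s' t', LE s' q → LE y t' → relR s' t' → relL s' t' := hrl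
    have hq : LE v q ∨ LE v' q := by
      revert hc
      cases q <;> simp [relC, LE]
    rcases hq with hq | hq
    · have := hrl _ _ hq (le_rfl' _) (by simp [relR])
      simp [relL] at this
    · have := hrl _ _ hq (le_rfl' _) (by simp [relR])
      simp [relL] at this

theorem finite_Pt : Finite Pt.{u} := by
  refine Finite.of_surjective
    (![x, x', p, v, v', z, w, y, y', k, k'] : Fin 11 → Pt.{u}) fun q => ?_
  cases q
  · exact ⟨0, rfl⟩
  · exact ⟨1, rfl⟩
  · exact ⟨2, rfl⟩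
  · exact ⟨3, rfl⟩
  · exact ⟨4, rfl⟩
  · exact ⟨5, rfl⟩
  · exact ⟨6, rfl⟩
  · exact ⟨7, rfl⟩
  · exact ⟨8, rfl⟩
  · exact ⟨9, rfl⟩
  · exact ⟨10, rfl⟩

theorem finite_Al : Finite Al.{u} := by
  have := finite_Pt.{u}
  refine Finite.of_injective (fun R : Al.{u} => R.1.1) ?_
  intro R S h
  exact Subtype.ext (Subtype.ext h)

/-- **`K` is not a variety.**  There are a finite poset `P`, a finite subalgebra `A` of the algebra
`W(P)` of weakening relations on `P` (given by an injective homomorphism `i`; so `A` is in `K`),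
and a homomorphism `f` of `A` onto an algebra `B` that does not lie in `K`.  Hence the class `K`
of representable weakening implication semigroups is not closed under homomorphic images, and is
not a variety. -/
theorem result :
    (∃ (P : Type u) (ord : PartialOrder P) (A B : Type u) (o : Ops A) (o' : Ops B)
      (i : A → Weak P ord) (f : A → B),
      Finite P ∧ Finite A ∧ IsHom o (weakOps P ord) i ∧ Function.Injective i ∧ InK A o ∧
        IsHom o o' f ∧ Function.Surjective f ∧ ¬ InK B o') ∧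
    ¬ IsVariety (InK.{u}) := by
  have main : InK Al.{u} alOps ∧ IsHom alOps.{u} quOps toQu ∧ Function.Surjective toQu.{u} ∧
      ¬ InK Qu.{u} quOps := ⟨al_inK, toQu_hom, toQu_surj, qu_notInK⟩
  refine ⟨⟨Pt, ord, Al, Qu, alOps, quOps, fun R => R.1, toQu, finite_Pt, finite_Al,
    ⟨fun _ _ => rfl, fun _ _ => rfl⟩, Subtype.val_injective, main⟩, fun hV => ?_⟩
  exact main.2.2.2 (hV.homImage _ _ _ _ _ main.1 main.2.1 main.2.2.1)

end Pool.Agent.Results.MP_d80673_al.NotVariety
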